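import Pool.Agent.Y264.QR.Stm2
import Pool.Agent.Y540.QE.Sub
import Pool.Agent.Y708.QE.Gr
import Pool.Agent.Y274.QE.Fin

/-!
# QR-LO: the sharp spectral inequality on a surface
-/

set_option autoImplicit false
set_option linter.unusedSectionVars false

open Set Filter Topology MeasureTheory
open scoped Real ContDiff ENNReal
open Pool.Agent.Y262.QE Pool.Agent.Y264.QR

noncomputable section

namespace Pool.Agent.Y764.QR

theorem choose_eta (K ε : ℝ) (hε : 0 < ε) : ∃ η : ℝ, 0 < η ∧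
    Real.exp η * (1 + η) ^ 4 + Real.sqrt η ≤ 1 + ε ∧
    (1 + η) ^ 2 * Real.exp η + K * Real.sqrt η ≤ 1 + ε := by
  have c1 : Continuous (fun η : ℝ => Real.exp η * (1 + η) ^ 4 + Real.sqrt η) := by fun_prop
  have c2 : Continuous (fun η : ℝ => (1 + η) ^ 2 * Real.exp η + K * Real.sqrt η) := by fun_prop
  have h1 : ∀ᶠ η : ℝ in 𝓝 0, Real.exp η * (1 + η) ^ 4 + Real.sqrt η < 1 + ε := by
    apply (tendsto_order.1 (c1.tendsto 0)).2
    simp
    linarith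
  have h2 : ∀ᶠ η : ℝ in 𝓝 0, (1 + η) ^ 2 * Real.exp η + K * Real.sqrt η < 1 + ε := by
    apply (tendsto_order.1 (c2.tendsto 0)).2
    simp
    linarith
  have h3 : ∀ᶠ η : ℝ in 𝓝[>] 0, 0 < η := eventually_nhdsWithin_of_forall fun x hx => hx
  obtain ⟨η, ⟨a, b⟩, c⟩ := (((h1.and h2).filter_mono nhdsWithin_le_nhds).and h3).exists
  exact ⟨η, c, a.le, b.le⟩

theorem vol_sq {r : ℝ} (hr : 0 < r) : (volume : Measure ℂ).real (Sq 0 r) = 4 * r ^ 2 := by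
  have h := Pool.Agent.Y540.QE.int_sq 0 hr (F := fun _ => (1 : ℝ)) continuousOn_const
  simp only [setIntegral_const, smul_eq_mul, mul_one, intervalIntegral.integral_const] at h
  rw [h]
  simp
  ring

section

variable {M : Type} [MetricSpace M] [CompactSpace M] [MeasurableSpace M] [BorelSpace M]
  {μ : Measure M} [IsFiniteMeasure μ] {D : Data M} {η r : ℝ} {Φ : ℂ → M}

theorem meas_sq (r : ℝ) : MeasurableSet (Sq 0 r) :=
  (Pool.Agent.Y540.QE.compact_sq 0 r).isClosed.measurableSet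

theorem meas_P (hP : Pt D μ η r Φ) : MeasurableSet (Φ '' Sq 0 r) :=
  ((Pool.Agent.Y540.QE.compact_sq 0 r).image_of_continuousOn hP.cont).isClosed.measurableSet

theorem aem (hP : Pt D μ η r Φ) : AEMeasurable Φ (volume.restrict (Sq 0 r)) :=
  hP.cont.aemeasurable (meas_sq r)

/-- bounded measurable functions are integrable on the square -/
theorem int_comp (hP : Pt D μ η r Φ) {g : M → ℝ} (hg : Measurable g) {C : ℝ}
    (hC : ∀ x, |g x| ≤ C) : IntegrableOn (fun y => g (Φ y)) (Sq 0 r) volume := by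
  have : IsFiniteMeasure (volume.restrict (Sq 0 r)) :=
    ⟨by rw [Measure.restrict_apply_univ]; exact (Pool.Agent.Y540.QE.compact_sq 0 r).measure_lt_top⟩
  refine Integrable.of_bound (hg.comp_aemeasurable (aem hP)).aestronglyMeasurable C ?_
  exact ae_of_all _ fun y => by rw [Real.norm_eq_abs]; exact hC _

theorem int_bdd {g : M → ℝ} (hg : Measurable g) {C : ℝ} (hC : ∀ x, |g x| ≤ C) :
    Integrable g μ :=
  Integrable.of_bound hg.aestronglyMeasurable C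
    (ae_of_all _ fun y => by rw [Real.norm_eq_abs]; exact hC _)

theorem int_le (hη : 0 < η) (hP : Pt D μ η r Φ) {g : M → ℝ} (hg : Measurable g)
    (h0 : ∀ x, 0 ≤ g x) {C : ℝ} (hC : ∀ x, |g x| ≤ C) :
    ∫ x in Φ '' Sq 0 r, g x ∂μ ≤ (1 + η) * ∫ y in Sq 0 r, g (Φ y) ∧
    ∫ y in Sq 0 r, g (Φ y) ≤ (1 + η) * ∫ x in Φ '' Sq 0 r, g x ∂μ := by
  have i1 := int_comp hP hg hC
  have i2 : Integrable g μ := int_bdd hg hC
  obtain ⟨k1, k2⟩ := hP.int (fun x => ENNReal.ofReal (g x)) hg.ennreal_ofReal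
  have e1 : ∫⁻ x in Φ '' Sq 0 r, ENNReal.ofReal (g x) ∂μ =
      ENNReal.ofReal (∫ x in Φ '' Sq 0 r, g x ∂μ) :=
    (ofReal_integral_eq_lintegral_ofReal i2.integrableOn (ae_of_all _ fun x => h0 x)).symm
  have e2 : ∫⁻ y in Sq 0 r, ENNReal.ofReal (g (Φ y)) =
      ENNReal.ofReal (∫ y in Sq 0 r, g (Φ y)) :=
    (ofReal_integral_eq_lintegral_ofReal i1 (ae_of_all _ fun x => h0 _)).symm
  have p1 : 0 ≤ ∫ x in Φ '' Sq 0 r, g x ∂μ := integral_nonneg fun x => h0 x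
  have p2 : 0 ≤ ∫ y in Sq 0 r, g (Φ y) := integral_nonneg fun x => h0 _
  have hη' : 0 ≤ 1 + η := by linarith
  rw [e1, e2, ← ENNReal.ofReal_mul hη'] at k1 k2
  exact ⟨(ENNReal.ofReal_le_ofReal_iff (by positivity)).1 k1,
    (ENNReal.ofReal_le_ofReal_iff (by positivity)).1 k2⟩

/-- continuous functions on a compact space are bounded -/
theorem cont_bdd {g : M → ℝ} (hg : Continuous g) : ∃ C, ∀ x, |g x| ≤ C := by
  obtain ⟨C, hC⟩ := (isCompact_range hg).isBounded.exists_norm_le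
  exact ⟨C, fun x => hC _ ⟨x, rfl⟩⟩

theorem area (hη : 0 < η) (hr : 0 < r) (hP : Pt D μ η r Φ) (φ : C(M, ℝ))
    (hφ : ∀ y ∈ Sq 0 r, |φ (Φ y) - φ (Φ 0)| ≤ η) :
    4 * r ^ 2 * Real.exp (φ (Φ 0)) ≤
      (1 + η) * Real.exp η * ∫ x in Φ '' Sq 0 r, Real.exp (φ x) ∂μ := by
  have hc : Continuous fun x => Real.exp (φ x) := Real.continuous_exp.comp φ.continuous
  obtain ⟨C, hC⟩ := cont_bdd hc
  have h1 := (int_le hη hP hc.measurable (fun x => (Real.exp_pos _).le) hC).2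
  have h2 : ∫ y in Sq 0 r, (Real.exp (-η) * Real.exp (φ (Φ 0))) ≤
      ∫ y in Sq 0 r, Real.exp (φ (Φ y)) := by
    refine setIntegral_mono_on ?_ (int_comp hP hc.measurable hC) (meas_sq r) fun y hy => ?_
    · exact integrableOn_const (Pool.Agent.Y540.QE.compact_sq 0 r).measure_lt_top.ne
    · rw [← Real.exp_add]
      apply Real.exp_le_exp.2
      have := (abs_le.1 (hφ y hy)).1
      linarith
  rw [setIntegral_const, vol_sq hr, smul_eq_mul] at h2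
  have h3 : Real.exp η * Real.exp (-η) = 1 := by rw [← Real.exp_add]; simp
  have h4 := h2.trans h1
  calc 4 * r ^ 2 * Real.exp (φ (Φ 0))
      = Real.exp η * (4 * r ^ 2 * (Real.exp (-η) * Real.exp (φ (Φ 0)))) := by
        rw [show Real.exp η * (4 * r ^ 2 * (Real.exp (-η) * Real.exp (φ (Φ 0)))) =
          (Real.exp η * Real.exp (-η)) * (4 * r ^ 2 * Real.exp (φ (Φ 0))) by ring, h3, one_mul]
    _ ≤ Real.exp η * ((1 + η) * ∫ x in Φ '' Sq 0 r, Real.exp (φ x) ∂μ) := by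
        gcongr
    _ = _ := by ring

theorem square (hD : D.IsSurf μ) (hNeu : StNeu) (hη : 0 < η) (hr : 0 < r) (hP : Pt D μ η r Φ)
    (φ : C(M, ℝ)) (hφ : ∀ y ∈ Sq 0 r, |φ (Φ y) - φ (Φ 0)| ≤ η) {Λ : ℝ} (hΛ : 0 < Λ) :
    ∃ κ : Fin (cN (4 * r ^ 2 * (Λ * Real.exp (φ (Φ 0))) / π ^ 2)) → M → ℝ,
      (∀ i, MemLp (κ i) 2 μ) ∧ ∀ F, D.C1 F →
      ∫ x in Φ '' Sq 0 r, Real.exp (φ x) * (F x) ^ 2 ∂μ ≤
        Real.exp η * (1 + η) ^ 4 * Λ⁻¹ * (∫ x in Φ '' Sq 0 r, ‖D.gr F x‖ ^ 2 ∂μ) +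
        ∑ i, (∫ x, F x * κ i x ∂μ) ^ 2 := by
  obtain ⟨w, hw⟩ : ∃ w, w = Real.exp (φ (Φ 0)) := ⟨_, rfl⟩
  rw [← hw]
  have hw0 : 0 < w := hw ▸ Real.exp_pos _
  obtain ⟨κ, k1, k2, k3⟩ := hNeu r (Λ * w) hr (by positivity)
  choose κ' m1 m2 using fun i => hP.fct (κ i) (k1 i) (k2 i)
  obtain ⟨c, hc⟩ : ∃ c, c = Real.sqrt (Real.exp η * w * (1 + η)) := ⟨_, rfl⟩
  have hc2 : c ^ 2 = Real.exp η * w * (1 + η) := by
    rw [hc, Real.sq_sqrt (by positivity)]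
  refine ⟨fun i x => c * κ' i x, fun i => (m1 i).const_mul c, fun F hF => ?_⟩
  obtain ⟨gr1, -, -⟩ := Pool.Agent.Y708.QE.gradient M μ D hD
  obtain ⟨cF, mg, CG, hCG⟩ := gr1 F hF
  obtain ⟨O, o1, o2, o3⟩ := hP.grad
  obtain ⟨o4, o5⟩ := o3 F hF
  obtain ⟨CF, hCF⟩ := cont_bdd (cF.pow 2)
  have hexp : Continuous fun x => Real.exp (φ x) := Real.continuous_exp.comp φ.continuous
  obtain ⟨CE, hCE⟩ := cont_bdd (hexp.mul (cF.pow 2))
  have s1 : ∫ x in Φ '' Sq 0 r, Real.exp (φ x) * (F x) ^ 2 ∂μ ≤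
      Real.exp η * w * ∫ x in Φ '' Sq 0 r, (F x) ^ 2 ∂μ := by
    rw [← integral_const_mul]
    refine setIntegral_mono_on ?_ ?_ (meas_P hP) ?_
    · exact (int_bdd (hexp.mul (cF.pow 2)).measurable hCE).integrableOn
    · exact ((int_bdd (cF.pow 2).measurable hCF).const_mul _).integrableOn
    · rintro x ⟨y, hy, rfl⟩
      have h1 := (abs_le.1 (hφ y hy)).2
      have h2 : Real.exp (φ (Φ y)) ≤ Real.exp η * w := by
        rw [hw, ← Real.exp_add]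
        apply Real.exp_le_exp.2
        linarith
      gcongr
  have s2 : ∫ x in Φ '' Sq 0 r, (F x) ^ 2 ∂μ ≤ (1 + η) * ∫ y in Sq 0 r, (F (Φ y)) ^ 2 :=
    (int_le hη hP (g := fun x => (F x) ^ 2) (cF.pow 2).measurable (fun x => sq_nonneg _) hCF).1
  have s3 := k3 O (fun y => F (Φ y)) o1 o2 o4
  have s4 : ∫ z in Sq 0 r, ‖fderiv ℝ (fun y => F (Φ y)) z‖ ^ 2 ≤
      (1 + η) ^ 2 * ∫ z in Sq 0 r, ‖D.gr F (Φ z)‖ ^ 2 := by
    rw [← integral_const_mul]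
    refine setIntegral_mono_on ?_ ?_ (meas_sq r) ?_
    · refine ContinuousOn.integrableOn_compact (Pool.Agent.Y540.QE.compact_sq 0 r) ?_
      exact (((o4.continuousOn_fderiv_of_isOpen o1 le_rfl).mono o2).norm).pow 2
    · refine Integrable.const_mul ?_ _
      refine int_comp hP (g := fun x => ‖D.gr F x‖ ^ 2) (mg.norm.pow_const 2) (C := CG ^ 2) ?_
      intro x
      rw [abs_of_nonneg (sq_nonneg _)]
      have := hCG x
      gcongr
    · intro z hz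
      have h1 := (o5 z (o2 hz)).1
      calc ‖fderiv ℝ (fun y => F (Φ y)) z‖ ^ 2 ≤ ((1 + η) * ‖D.gr F (Φ z)‖) ^ 2 := by gcongr
        _ = _ := by ring
  have s5 := (int_le hη hP (g := fun x => ‖D.gr F x‖ ^ 2) (mg.norm.pow_const 2)
    (fun x => sq_nonneg _) (C := CG ^ 2) (fun x => by
      rw [abs_of_nonneg (sq_nonneg _)]
      have := hCG x
      gcongr)).2
  have e1 : ∑ i, (∫ x, F x * (c * κ' i x) ∂μ) ^ 2 =
      Real.exp η * w * (1 + η) * ∑ i, (∫ y in Sq 0 r, F (Φ y) * κ i y) ^ 2 := by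
    rw [Finset.mul_sum]
    apply Finset.sum_congr rfl
    intro i _
    rw [← m2 i F cF, ← hc2, ← mul_pow, ← integral_const_mul]
    congr 2
    ext x
    ring
  obtain ⟨X1, hX1⟩ : ∃ X, X = ∫ x in Φ '' Sq 0 r, Real.exp (φ x) * (F x) ^ 2 ∂μ := ⟨_, rfl⟩
  obtain ⟨X2, hX2⟩ : ∃ X, X = ∫ x in Φ '' Sq 0 r, (F x) ^ 2 ∂μ := ⟨_, rfl⟩
  obtain ⟨X3, hX3⟩ : ∃ X, X = ∫ y in Sq 0 r, (F (Φ y)) ^ 2 := ⟨_, rfl⟩
  obtain ⟨X4, hX4⟩ : ∃ X, X = ∫ z in Sq 0 r, ‖fderiv ℝ (fun y => F (Φ y)) z‖ ^ 2 := ⟨_, rfl⟩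
  obtain ⟨X5, hX5⟩ : ∃ X, X = ∫ z in Sq 0 r, ‖D.gr F (Φ z)‖ ^ 2 := ⟨_, rfl⟩
  obtain ⟨X6, hX6⟩ : ∃ X, X = ∫ x in Φ '' Sq 0 r, ‖D.gr F x‖ ^ 2 ∂μ := ⟨_, rfl⟩
  obtain ⟨Sg, hSg⟩ : ∃ X, X = ∑ i, (∫ y in Sq 0 r, F (Φ y) * κ i y) ^ 2 := ⟨_, rfl⟩
  rw [e1]
  rw [← hX1, ← hX2] at s1
  rw [← hX2, ← hX3] at s2
  rw [← hX3, ← hX4, ← hSg] at s3
  rw [← hX4, ← hX5] at s4
  rw [← hX5, ← hX6] at s5
  rw [← hX1, ← hX6, ← hSg]
  have q1 : 0 < Real.exp η := Real.exp_pos _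
  calc X1 ≤ Real.exp η * w * X2 := s1
    _ ≤ Real.exp η * w * ((1 + η) * X3) := by gcongr
    _ ≤ Real.exp η * w * ((1 + η) * ((Λ * w)⁻¹ * X4 + Sg)) := by gcongr
    _ ≤ Real.exp η * w * ((1 + η) * ((Λ * w)⁻¹ * ((1 + η) ^ 2 * ((1 + η) * X6)) + Sg)) := by
        gcongr
        exact s4.trans (by gcongr)
    _ = _ := by
        field_simp

theorem sum_disj {n : ℕ} {P : Fin n → Set M} (hP : ∀ k, MeasurableSet (P k))
    (hd : ∀ k l, k ≠ l → Disjoint (P k) (P l)) {g : M → ℝ} (hg : Integrable g μ)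
    (h0 : ∀ x, 0 ≤ g x) : ∑ k, ∫ x in P k, g x ∂μ ≤ ∫ x, g x ∂μ := by
  classical
  have e : ∀ k, ∫ x in P k, g x ∂μ = ∫ x, (P k).indicator g x ∂μ := fun k =>
    (integral_indicator (hP k)).symm
  simp only [e]
  rw [← integral_finsetSum _ (fun k _ => hg.indicator (hP k))]
  refine integral_mono (integrable_finsetSum _ fun k _ => hg.indicator (hP k)) hg fun x => ?_
  simp only
  by_cases h : ∃ k, x ∈ P k
  · obtain ⟨k, hk⟩ := h
    rw [Finset.sum_eq_single k]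
    · rw [indicator_of_mem hk]
    · intro l _ hl
      rw [indicator_of_notMem]
      intro hx
      exact Set.disjoint_left.1 (hd l k hl) hx hk
    · intro hk'
      exact absurd (Finset.mem_univ k) hk'
  · push Not at h
    rw [Finset.sum_eq_zero]
    · exact h0 x
    · intro k _
      exact indicator_of_notMem (h k) g

theorem cover {n : ℕ} {P : Fin n → Set M} (hP : ∀ k, MeasurableSet (P k)) {R : Set M}
    (hR : MeasurableSet R) (hc : ∀ x, x ∈ R ∨ ∃ k, x ∈ P k) {g : M → ℝ} (hg : Integrable g μ)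
    (h0 : ∀ x, 0 ≤ g x) : ∫ x, g x ∂μ ≤ ∑ k, ∫ x in P k, g x ∂μ + ∫ x in R, g x ∂μ := by
  classical
  have e : ∀ k, ∫ x in P k, g x ∂μ = ∫ x, (P k).indicator g x ∂μ := fun k =>
    (integral_indicator (hP k)).symm
  have e' : ∫ x in R, g x ∂μ = ∫ x, R.indicator g x ∂μ := (integral_indicator hR).symm
  have i1 := integrable_finsetSum Finset.univ fun k _ => hg.indicator (hP k)
  simp only [e, e']
  rw [← integral_finsetSum _ (fun k _ => hg.indicator (hP k)), ← integral_add i1 (hg.indicator hR)]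
  refine integral_mono hg (i1.add (hg.indicator hR)) fun x => ?_
  simp only
  have n1 : ∀ k, 0 ≤ (P k).indicator g x := fun k => indicator_nonneg (fun y _ => h0 y) x
  have n2 : 0 ≤ R.indicator g x := indicator_nonneg (fun y _ => h0 y) x
  rcases hc x with h | ⟨k, hk⟩
  · rw [indicator_of_mem h]
    have := Finset.sum_nonneg (s := Finset.univ) fun k _ => n1 k
    linarith
  · have h1 := Finset.single_le_sum (s := Finset.univ) (fun k _ => n1 k) (Finset.mem_univ k)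
    rw [indicator_of_mem hk] at h1
    linarith

end

/-- **QR-LO** -/
theorem t : StNeu → StLat → StCov → StLeft → StLo := by
  intro hNeu hLat hCov hLeft M _ _ _ _ μ D hD hM φ ε hε
  obtain ⟨hfin, hopen⟩ := Pool.Agent.Y274.QE.Fin.fin M μ D hD
  obtain ⟨gr1, -, -⟩ := Pool.Agent.Y708.QE.gradient M μ D hD
  have hexp : Continuous fun x => Real.exp (φ x) := Real.continuous_exp.comp φ.continuous
  obtain ⟨CE, hCE⟩ := cont_bdd hexp
  have iexp : Integrable (fun x => Real.exp (φ x)) μ := int_bdd hexp.measurable hCE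
  obtain ⟨A, hA⟩ : ∃ A, A = ∫ x, Real.exp (φ x) ∂μ := ⟨_, rfl⟩
  have hA0 : 0 < A := by
    rw [hA, integral_pos_iff_support_of_nonneg (fun x => (Real.exp_pos _).le) iexp]
    have : Function.support (fun x => Real.exp (φ x)) = univ := by
      ext x
      simp [(Real.exp_pos (φ x)).ne']
    rw [this]
    exact hopen univ isOpen_univ ⟨hM.some, trivial⟩
  obtain ⟨W, hW, hW0⟩ : ∃ W : ℝ, (∀ x, Real.exp (φ x) ≤ W) ∧ 0 < W :=
    ⟨CE, fun x => (le_abs_self _).trans (hCE x), (Real.exp_pos (φ hM.some)).trans_le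
      ((le_abs_self _).trans (hCE _))⟩
  obtain ⟨C, hC0, hC⟩ := hLeft M μ D hD
  obtain ⟨η, hη, hη1, hη2⟩ := choose_eta (4 * π * C * W / A) ε hε
  obtain ⟨n, r, Φ, R, c1, c2, c3, c4, c5, c6⟩ := hCov M μ D hD φ η hη
  obtain ⟨Λ₁, hΛ₁⟩ := hC R c4 η hη c6
  have hs : 0 < Real.sqrt η := Real.sqrt_pos.2 hη
  have hss : Real.sqrt η * Real.sqrt η = η := Real.mul_self_sqrt hη.le
  have hπ := Real.pi_pos
  -- the number of lattice points
  have hl1 : ∀ᶠ x : ℝ in atTop, (cN x : ℝ) ≤ (1 + η) * (π / 4) * x := by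
    have h1 : ∀ᶠ x : ℝ in atTop, (cN x : ℝ) / x < (1 + η) * (π / 4) := by
      apply (tendsto_order.1 hLat.1).2
      nlinarith
    filter_upwards [h1, eventually_gt_atTop 0] with x h2 h3
    rw [div_lt_iff₀ h3] at h2
    exact h2.le
  have hl2 : ∀ᶠ Λ : ℝ in atTop, ∀ k, (cN (4 * r k ^ 2 * (Λ * Real.exp (φ (Φ k 0))) / π ^ 2) : ℝ) ≤
      (1 + η) * (π / 4) * (4 * r k ^ 2 * (Λ * Real.exp (φ (Φ k 0))) / π ^ 2) := by
    rw [Filter.eventually_all]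
    intro k
    have hr := (c1 k).1
    have he := Real.exp_pos (φ (Φ k 0))
    have h3 : Tendsto (fun Λ : ℝ => 4 * r k ^ 2 * (Λ * Real.exp (φ (Φ k 0))) / π ^ 2) atTop atTop := by
      have : (fun Λ : ℝ => 4 * r k ^ 2 * (Λ * Real.exp (φ (Φ k 0))) / π ^ 2) =
          fun Λ => (4 * r k ^ 2 * Real.exp (φ (Φ k 0)) / π ^ 2) * Λ := by
        ext Λ; ring
      rw [this]
      exact tendsto_id.const_mul_atTop (by positivity)
    exact h3.eventually hl1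
  have hl3 : ∀ᶠ Λ : ℝ in atTop, Λ₁ ≤ W * Λ / Real.sqrt η := by
    have h3 : Tendsto (fun Λ : ℝ => W * Λ / Real.sqrt η) atTop atTop := by
      have : (fun Λ : ℝ => W * Λ / Real.sqrt η) = fun Λ => (W / Real.sqrt η) * Λ := by
        ext Λ; ring
      rw [this]
      exact tendsto_id.const_mul_atTop (by positivity)
    exact h3.eventually_ge_atTop _
  obtain ⟨Λ₀, hΛ₀⟩ := Filter.eventually_atTop.1 ((hl2.and hl3).and (eventually_gt_atTop 0))
  refine ⟨Λ₀, fun Λ hΛ => ?_⟩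
  obtain ⟨⟨h1, h2⟩, h3⟩ := hΛ₀ Λ hΛ
  obtain ⟨NR, κR, r1, r2, r3⟩ := hΛ₁ _ h2
  choose κ κm κi using fun k => square hD hNeu hη (c1 k).1 (c1 k).2 φ (c3 k) h3
  have hP : ∀ k, MeasurableSet (Φ k '' Sq 0 (r k)) := fun k => meas_P (c1 k).2
  -- areas
  have har : ∑ k, 4 * r k ^ 2 * Real.exp (φ (Φ k 0)) ≤ (1 + η) * Real.exp η * A := by
    calc ∑ k, 4 * r k ^ 2 * Real.exp (φ (Φ k 0))
        ≤ ∑ k, (1 + η) * Real.exp η * ∫ x in Φ k '' Sq 0 (r k), Real.exp (φ x) ∂μ :=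
          Finset.sum_le_sum fun k _ => area hη (c1 k).1 (c1 k).2 φ (c3 k)
      _ = (1 + η) * Real.exp η * ∑ k, ∫ x in Φ k '' Sq 0 (r k), Real.exp (φ x) ∂μ := by
          rw [Finset.mul_sum]
      _ ≤ _ := by
          have := sum_disj hP c2 iexp (fun x => (Real.exp_pos _).le)
          rw [hA]
          gcongr
  obtain ⟨nk, hnk⟩ : ∃ nk : Fin n → ℕ, nk = fun k =>
    cN (4 * r k ^ 2 * (Λ * Real.exp (φ (Φ k 0))) / π ^ 2) := ⟨_, rfl⟩
  have hcount : (∑ k, (nk k : ℝ)) + NR ≤ (1 + ε) * Λ * A / (4 * π) := by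
    have q1 : ∑ k, (nk k : ℝ) ≤ (1 + η) ^ 2 * Real.exp η * (Λ * A / (4 * π)) := by
      calc ∑ k, (nk k : ℝ) ≤ ∑ k, (1 + η) * (π / 4) *
            (4 * r k ^ 2 * (Λ * Real.exp (φ (Φ k 0))) / π ^ 2) := by
            apply Finset.sum_le_sum
            intro k _
            rw [hnk]
            exact h1 k
        _ = (1 + η) * Λ / (4 * π) * ∑ k, 4 * r k ^ 2 * Real.exp (φ (Φ k 0)) := by
            rw [Finset.mul_sum]
            apply Finset.sum_congr rfl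
            intro k _
            field_simp
        _ ≤ (1 + η) * Λ / (4 * π) * ((1 + η) * Real.exp η * A) := by
            gcongr
        _ = _ := by ring
    have q2 : (NR : ℝ) ≤ (4 * π * C * W / A * Real.sqrt η) * (Λ * A / (4 * π)) := by
      refine r1.trans (le_of_eq ?_)
      have : C * η * (W * Λ / Real.sqrt η) = C * W * Λ * Real.sqrt η := by
        rw [mul_div_assoc', div_eq_iff hs.ne']
        calc C * η * (W * Λ) = C * (Real.sqrt η * Real.sqrt η) * (W * Λ) := by rw [hss]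
          _ = _ := by ring
      rw [this]
      field_simp
    have q3 : 0 ≤ Λ * A / (4 * π) := by positivity
    calc (∑ k, (nk k : ℝ)) + NR ≤ ((1 + η) ^ 2 * Real.exp η + 4 * π * C * W / A * Real.sqrt η) *
          (Λ * A / (4 * π)) := by rw [add_mul]; exact add_le_add q1 q2
      _ ≤ (1 + ε) * (Λ * A / (4 * π)) := by gcongr
      _ = _ := by ring
  -- the functionals
  have hmain : ∀ F, D.C1 F → ∫ x, Real.exp (φ x) * (F x) ^ 2 ∂μ ≤
      (1 + ε) * Λ⁻¹ * (∫ x, ‖D.gr F x‖ ^ 2 ∂μ) + ((∑ k, ∑ i, (∫ x, F x * κ k i x ∂μ) ^ 2) +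
        ∑ i, (∫ x, F x * (Real.sqrt W * κR i x) ∂μ) ^ 2) := by
    intro F hF
    obtain ⟨cF, mg, CG, hCG⟩ := gr1 F hF
    obtain ⟨CF, hCF⟩ := cont_bdd (cF.pow 2)
    obtain ⟨CH, hCH⟩ := cont_bdd (hexp.mul (cF.pow 2))
    have iF : Integrable (fun x => (F x) ^ 2) μ := int_bdd (cF.pow 2).measurable hCF
    have iH : Integrable (fun x => Real.exp (φ x) * (F x) ^ 2) μ :=
      int_bdd (hexp.mul (cF.pow 2)).measurable hCH
    have iG : Integrable (fun x => ‖D.gr F x‖ ^ 2) μ :=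
      int_bdd (mg.norm.pow_const 2) (C := CG ^ 2) (fun x => by
        rw [abs_of_nonneg (sq_nonneg _)]
        have := hCG x
        gcongr)
    have t1 := cover hP c4.measurableSet c5 iH
      (fun x => mul_nonneg (Real.exp_pos _).le (sq_nonneg _))
    have t2 : ∑ k, ∫ x in Φ k '' Sq 0 (r k), Real.exp (φ x) * (F x) ^ 2 ∂μ ≤
        Real.exp η * (1 + η) ^ 4 * Λ⁻¹ * (∫ x, ‖D.gr F x‖ ^ 2 ∂μ) +
          ∑ k, ∑ i, (∫ x, F x * κ k i x ∂μ) ^ 2 := by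
      calc _ ≤ ∑ k, (Real.exp η * (1 + η) ^ 4 * Λ⁻¹ *
            (∫ x in Φ k '' Sq 0 (r k), ‖D.gr F x‖ ^ 2 ∂μ) +
            ∑ i, (∫ x, F x * κ k i x ∂μ) ^ 2) := Finset.sum_le_sum fun k _ => κi k F hF
        _ = Real.exp η * (1 + η) ^ 4 * Λ⁻¹ *
            (∑ k, ∫ x in Φ k '' Sq 0 (r k), ‖D.gr F x‖ ^ 2 ∂μ) +
            ∑ k, ∑ i, (∫ x, F x * κ k i x ∂μ) ^ 2 := by
            rw [Finset.sum_add_distrib, Finset.mul_sum]
        _ ≤ _ := by
            have := sum_disj hP c2 iG (fun x => sq_nonneg _)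
            gcongr
    have t3 : ∫ x in R, Real.exp (φ x) * (F x) ^ 2 ∂μ ≤ W * ∫ x in R, (F x) ^ 2 ∂μ := by
      rw [← integral_const_mul]
      refine setIntegral_mono_on iH.integrableOn (iF.const_mul _).integrableOn c4.measurableSet ?_
      intro x _
      have := hW x
      gcongr
    have t4 := r3 F hF
    have t5 : ∑ i, (∫ x, F x * (Real.sqrt W * κR i x) ∂μ) ^ 2 =
        W * ∑ i, (∫ x, F x * κR i x ∂μ) ^ 2 := by
      rw [Finset.mul_sum]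
      apply Finset.sum_congr rfl
      intro i _
      rw [← Real.sq_sqrt hW0.le, ← mul_pow, ← integral_const_mul, Real.sqrt_sq (Real.sqrt_nonneg _)]
      congr 2
      ext x
      ring
    rw [t5]
    obtain ⟨X, hX⟩ : ∃ X, X = ∫ x, ‖D.gr F x‖ ^ 2 ∂μ := ⟨_, rfl⟩
    obtain ⟨Y, hY⟩ : ∃ Y, Y = ∑ i, (∫ x, F x * κR i x ∂μ) ^ 2 := ⟨_, rfl⟩
    have hX0 : 0 ≤ X := by rw [hX]; exact integral_nonneg fun x => sq_nonneg _
    rw [← hX] at t2 t4 ⊢
    rw [← hY] at t4 ⊢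
    have t6 : W * ((W * Λ / Real.sqrt η)⁻¹ * X + Y) = Real.sqrt η * Λ⁻¹ * X + W * Y := by
      field_simp
    have t7 : W * ∫ x in R, (F x) ^ 2 ∂μ ≤ Real.sqrt η * Λ⁻¹ * X + W * Y := by
      rw [← t6]
      gcongr
    have t8 : (Real.exp η * (1 + η) ^ 4 + Real.sqrt η) * (Λ⁻¹ * X) ≤ (1 + ε) * (Λ⁻¹ * X) := by
      gcongr
    nlinarith [t1, t2, t3, t7, t8]
  obtain ⟨ι, hι⟩ : ∃ ι : Type, ι = ((Σ k : Fin n, Fin (nk k)) ⊕ Fin NR) := ⟨_, rfl⟩
  subst hnk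
  refine ⟨Fintype.card ((Σ k : Fin n, Fin (cN (4 * r k ^ 2 * (Λ * Real.exp (φ (Φ k 0))) / π ^ 2))) ⊕
    Fin NR), fun j => Sum.elim (fun p => κ p.1 p.2) (fun i x => Real.sqrt W * κR i x)
      ((Fintype.equivFin _).symm j), ?_, ?_, ?_⟩
  · rw [Fintype.card_sum, Fintype.card_sigma, Fintype.card_fin]
    simp only [Fintype.card_fin]
    push_cast
    rw [← hA]
    exact hcount
  · have key : ∀ q : (Σ k : Fin n, Fin (cN (4 * r k ^ 2 * (Λ * Real.exp (φ (Φ k 0))) / π ^ 2))) ⊕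
        Fin NR, MemLp (Sum.elim (fun p => κ p.1 p.2) (fun i x => Real.sqrt W * κR i x) q) 2 μ := by
      rintro (p | i)
      · exact κm p.1 p.2
      · exact (r2 i).const_mul _
    exact fun j => key _
  · intro F hF
    refine (hmain F hF).trans (le_of_eq ?_)
    congr 1
    rw [Equiv.sum_comp (Fintype.equivFin ((Σ k : Fin n, Fin (cN (4 * r k ^ 2 * (Λ *
      Real.exp (φ (Φ k 0))) / π ^ 2))) ⊕ Fin NR)).symm (fun q => (∫ x, F x *
      Sum.elim (fun p => κ p.1 p.2) (fun i x => Real.sqrt W * κR i x) q x ∂μ) ^ 2),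
      Fintype.sum_sum_type, Fintype.sum_sigma]
    rfl

end Pool.Agent.Y764.QR
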